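import Mathlib

namespace Pool.H84.Jet

open MvPolynomial

/-- The derivation `d` of the jet polynomial ring `A = ℝ[u_0, u_1, ...]`, `u_i = X i`, with
`d u_i = u_(i+1)`. -/
noncomputable def d : Derivation ℝ (MvPolynomial ℕ ℝ) (MvPolynomial ℕ ℝ) :=
  mkDerivation ℝ fun i => X (i + 1)

/-- The product `f * g = ∑_i (f_i d^i g + (-d)^i (f g_i))` of the problem. -/
noncomputable def star (f g : MvPolynomial ℕ ℝ) : MvPolynomial ℕ ℝ :=
  ∑ᶠ i : ℕ, (pderiv i f * d^[i] g + (-1) ^ i * d^[i] (f * pderiv i g))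

end Pool.H84.Jet
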