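import Pool.Agent.H84.Jet.Lem1

namespace Pool.H84.Jet

open MvPolynomial

theorem H_add (g : MvPolynomial ℕ ℝ) {a b : MvPolynomial ℕ ℝ}
    (ha : a ∈ {h | star h g = 0}) (hb : b ∈ {h | star h g = 0}) : a + b ∈ {h | star h g = 0} := by
  simp only [Set.mem_ofPred_eq] at ha hb ⊢
  rw [star_add, ha, hb, add_zero]

theorem H_zero (g : MvPolynomial ℕ ℝ) : 0 ∈ {h | star h g = 0} := by
  have := star_smul 0 (0 : A) g
  simpa using this

theorem H_smul (g : MvPolynomial ℕ ℝ) (c : ℝ) {x : MvPolynomial ℕ ℝ}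
    (hx : x ∈ {h | star h g = 0}) : c • x ∈ {h | star h g = 0} := by
  simp only [Set.mem_ofPred_eq] at hx ⊢
  rw [star_smul, hx, smul_zero]

/-- `H g = {h : h * g = 0}`, a real subspace of `A`. -/
noncomputable def H (g : MvPolynomial ℕ ℝ) : Submodule ℝ (MvPolynomial ℕ ℝ) where
  carrier := {h | star h g = 0}
  add_mem' := H_add g
  zero_mem' := H_zero g
  smul_mem' := H_smul g

/-- The assertion of Q1 for elements `g` of fixed order `m`. -/
def Q1At (m : ℕ) : Prop :=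
  ∀ (n : ℕ) (f g : MvPolynomial ℕ ℝ), m < n →
    f ∈ supported ℝ (Set.Iic n) → pderiv n f ≠ 0 →
    g ∈ supported ℝ (Set.Iic m) → pderiv m g ≠ 0 →
    star f g = 0 → ¬ FiniteDimensional ℝ (H g)

end Pool.H84.Jet
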