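import Pool.Agent.H84.Jet.Defs

namespace Pool.H84.Jet

open MvPolynomial

/-- The jet polynomial ring `A = ℝ[u_0, u_1, ...]`, with `u_i = X i`. -/
abbrev A : Type := MvPolynomial ℕ ℝ

/-! ### Basic facts -/

/-- `OB N f`: `f` only involves `u_0, ..., u_(N-1)`. -/
def OB (N : ℕ) (f : A) : Prop := ∀ k, N ≤ k → pderiv k f = 0

lemma pderiv_eq_zero_iff (k : ℕ) (f : A) : pderiv k f = 0 ↔ k ∉ f.vars := by
  constructor
  · intro h hk
    rw [mem_vars_iff_mem_support] at hk
    obtain ⟨e, he, hke⟩ := hk
    have hek : e k ≠ 0 := by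
      simpa using hke
    have h1 : coeff (e - Finsupp.single k 1) (pderiv k f) = 0 := by rw [h]; simp
    rw [coeff_pderiv] at h1
    have h2 : e - Finsupp.single k 1 + Finsupp.single k 1 = e := by
      apply Finsupp.sub_add_single_one_cancel hek
    rw [h2] at h1
    have h3 : coeff e f ≠ 0 := by simpa [mem_support_iff] using he
    have h4 : (((e - Finsupp.single k 1 : ℕ →₀ ℕ) k : ℝ) + 1) ≠ 0 := by positivity
    exact (mul_ne_zero h3 h4) h1
  · exact pderiv_eq_zero_of_notMem_vars

lemma OB_mono {N M : ℕ} (h : N ≤ M) {f : A} (hf : OB N f) : OB M f :=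
  fun k hk => hf k (h.trans hk)

lemma exists_OB (f : A) : ∃ N, OB N f := by
  refine ⟨f.vars.sup id + 1, fun k hk => ?_⟩
  apply pderiv_eq_zero_of_notMem_vars
  intro hkv
  have : k ≤ f.vars.sup id := Finset.le_sup (f := id) hkv
  omega

lemma OB_iff_supported (N : ℕ) (f : A) : OB (N + 1) f ↔ f ∈ supported ℝ (Set.Iic N) := by
  rw [mem_supported]
  constructor
  · intro h k hk
    by_contra hc
    have : N + 1 ≤ k := by simpa using hc
    exact (pderiv_eq_zero_iff k f).1 (h k this) hk
  · intro h k hk
    apply pderiv_eq_zero_of_notMem_vars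
    intro hkv
    have := h hkv
    simp at this
    omega

lemma OB_add {N : ℕ} {f g : A} (hf : OB N f) (hg : OB N g) : OB N (f + g) :=
  fun k hk => by rw [map_add, hf k hk, hg k hk, add_zero]

lemma OB_sub {N : ℕ} {f g : A} (hf : OB N f) (hg : OB N g) : OB N (f - g) :=
  fun k hk => by rw [map_sub, hf k hk, hg k hk, sub_zero]

lemma OB_mul {N : ℕ} {f g : A} (hf : OB N f) (hg : OB N g) : OB N (f * g) :=
  fun k hk => by rw [pderiv_mul, hf k hk, hg k hk, zero_mul, mul_zero, add_zero]

lemma OB_C (N : ℕ) (c : ℝ) : OB N (C c) := fun _ _ => pderiv_C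

lemma OB_X {N i : ℕ} (h : i < N) : OB N (X i) :=
  fun k hk => pderiv_X_of_ne (by omega)

lemma pderiv_comm (i j : ℕ) (f : A) : pderiv i (pderiv j f) = pderiv j (pderiv i f) := by
  have h : ⁅(pderiv i : Derivation ℝ A A), (pderiv j : Derivation ℝ A A)⁆ = 0 := by
    apply derivation_ext
    intro k
    rw [Derivation.commutator_apply, pderiv_X, pderiv_X]
    by_cases h1 : k = j <;> by_cases h2 : k = i <;> simp [Pi.single_apply, h1, h2]
    all_goals (split_ifs <;> simp)
  have h2 := congrArg (fun D : Derivation ℝ A A => D f) h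
  simp only [Derivation.commutator_apply, Derivation.zero_apply] at h2
  exact sub_eq_zero.1 h2

lemma OB_pderiv {N : ℕ} {f : A} (hf : OB N f) (k : ℕ) : OB N (pderiv k f) :=
  fun j hj => by rw [pderiv_comm, hf j hj, map_zero]

@[simp] lemma d_X (i : ℕ) : d (X i) = X (i + 1) := mkDerivation_X _ _ _

@[simp] lemma d_C (c : ℝ) : d (C c : A) = 0 := derivation_C _ _

lemma d_mul (f g : A) : d (f * g) = d f * g + f * d g := by
  rw [Derivation.leibniz]; simp only [smul_eq_mul]; ring

lemma pderiv_zero_d (f : A) : pderiv 0 (d f) = d (pderiv 0 f) := by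
  have h : ⁅(pderiv 0 : Derivation ℝ A A), d⁆ = 0 := by
    apply derivation_ext
    intro k
    rw [Derivation.commutator_apply, d_X, pderiv_X, pderiv_X]
    by_cases h1 : k = 0 <;> simp [h1]
  have h2 := congrArg (fun D : Derivation ℝ A A => D f) h
  simp only [Derivation.commutator_apply, Derivation.zero_apply] at h2
  exact sub_eq_zero.1 h2

lemma pderiv_succ_d (j : ℕ) (f : A) :
    pderiv (j + 1) (d f) = d (pderiv (j + 1) f) + pderiv j f := by
  have h : ⁅(pderiv (j + 1) : Derivation ℝ A A), d⁆ = pderiv j := by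
    apply derivation_ext
    intro k
    rw [Derivation.commutator_apply, d_X, pderiv_X, pderiv_X, pderiv_X]
    by_cases h1 : k = j <;> by_cases h2 : k = j + 1 <;>
      simp [h1, h2]
  have h2 := congrArg (fun D : Derivation ℝ A A => D f) h
  simp only [Derivation.commutator_apply] at h2
  rw [← h2]; ring

lemma OB_d {N : ℕ} {f : A} (hf : OB N f) : OB (N + 1) (d f) := by
  intro k hk
  obtain ⟨j, rfl⟩ : ∃ j, k = j + 1 := ⟨k - 1, by omega⟩
  rw [pderiv_succ_d, hf (j + 1) (by omega), hf j (by omega), map_zero, add_zero]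

lemma OB_iter {N : ℕ} {f : A} (hf : OB N f) (i : ℕ) : OB (N + i) (d^[i] f) := by
  induction i with
  | zero => simpa using hf
  | succ i ih => rw [Function.iterate_succ_apply']; exact OB_d ih

/-- top coefficient -/
lemma top1 {N : ℕ} {h : A} (hh : OB (N + 1) h) (i : ℕ) :
    pderiv (N + i) (d^[i] h) = pderiv N h := by
  induction i with
  | zero => simp
  | succ i ih =>
    rw [Function.iterate_succ_apply', ← add_assoc, pderiv_succ_d, ih,
      (OB_iter hh i) (N + i + 1) (by omega), map_zero, zero_add]

lemma top2 {N : ℕ} {h : A} (hh : OB (N + 2) h) (i : ℕ) :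
    pderiv (N + 1 + i) (d^[i + 1] h) = ((i : A) + 1) * d (pderiv (N + 1) h) + pderiv N h := by
  induction i with
  | zero => simp [pderiv_succ_d]
  | succ i ih =>
    rw [Function.iterate_succ_apply', ← add_assoc, pderiv_succ_d, ih]
    have h1 := top1 (N := N + 1) hh (i + 1)
    rw [show N + 1 + i + 1 = N + 1 + (i + 1) by ring, h1]
    push_cast
    ring

lemma top3 {N : ℕ} {h : A} (hh : OB (N + 3) h) (i : ℕ) :
    pderiv (N + 2 + i) (d^[i + 2] h) =
      (((i + 2).choose 2 : ℕ) : A) * d (d (pderiv (N + 2) h)) + ((i : A) + 2) * d (pderiv (N + 1) h)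
        + pderiv N h := by
  induction i with
  | zero =>
    rw [show (0 + 2 : ℕ) = 1 + 1 from rfl, Function.iterate_succ_apply', Function.iterate_one]
    rw [show N + 2 + 0 = (N + 1) + 1 by ring, pderiv_succ_d, pderiv_succ_d, pderiv_succ_d, map_add]
    simp
    ring
  | succ i ih =>
    rw [show i + 1 + 2 = (i + 2) + 1 by ring, Function.iterate_succ_apply', ← add_assoc,
      pderiv_succ_d, ih]
    have h1 := top2 (N := N + 1) hh (i + 1)
    rw [show N + 1 + 1 + (i + 1) = N + 2 + i + 1 by ring, show N + 1 + 1 = N + 2 by ring,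
      show i + 1 + 1 = i + 2 by ring] at h1
    rw [h1, map_add]
    have h2 : d ((((i + 1 : ℕ) : A) + 1) * d (pderiv (N + 2) h)) =
        (((i + 1 : ℕ) : A) + 1) * d (d (pderiv (N + 2) h)) := by
      rw [d_mul]
      have : d (((i + 1 : ℕ) : A) + 1) = 0 := by
        rw [map_add, Derivation.map_natCast, Derivation.map_one_eq_zero, add_zero]
      rw [this]; ring
    rw [h2, Nat.choose_succ_succ' (i + 2) 1]
    simp only [Nat.choose_one_right]
    push_cast
    ring

/-! ### The evolutionary derivation -/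

/-- The evolutionary derivation with characteristic `g`: `u_i ↦ d^i g`. -/
noncomputable def evol (g : A) : Derivation ℝ A A := mkDerivation ℝ fun i => d^[i] g

@[simp] lemma evol_X (g : A) (i : ℕ) : evol g (X i) = d^[i] g := mkDerivation_X _ _ _

lemma sum_der_apply (s : Finset ℕ) (E : ℕ → Derivation ℝ A A) (f : A) :
    (∑ i ∈ s, E i) f = ∑ i ∈ s, E i f := by
  classical
  induction s using Finset.induction_on with
  | empty => simp
  | insert a s ha ih => rw [Finset.sum_insert ha, Finset.sum_insert ha, Derivation.add_apply, ih]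

lemma evol_eq_sum (g f : A) {N : ℕ} (hf : OB N f) :
    evol g f = ∑ i ∈ Finset.range N, pderiv i f * d^[i] g := by
  classical
  set D' : Derivation ℝ A A := ∑ i ∈ Finset.range N, (d^[i] g) • (pderiv i : Derivation ℝ A A)
    with hD'
  have h1 : evol g f = D' f := by
    apply derivation_eq_of_forall_mem_vars
    intro j hj
    have hjN : j < N := by
      by_contra hc
      exact (pderiv_eq_zero_iff j f).1 (hf j (by omega)) hj
    rw [evol_X, hD', sum_der_apply]
    rw [Finset.sum_eq_single j]
    · simp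
    · intro i _ hij
      simp [pderiv_X_of_ne (Ne.symm hij)]
    · intro hc
      exact absurd (Finset.mem_range.2 hjN) hc
  rw [h1, hD', sum_der_apply]
  apply Finset.sum_congr rfl
  intro i _
  simp [mul_comm]

lemma evol_d (g f : A) : evol g (d f) = d (evol g f) := by
  have h : ⁅evol g, d⁆ = 0 := by
    apply derivation_ext
    intro k
    rw [Derivation.commutator_apply, d_X, evol_X, evol_X, Function.iterate_succ_apply']
    simp
  have h2 := congrArg (fun D : Derivation ℝ A A => D f) h
  simp only [Derivation.commutator_apply, Derivation.zero_apply] at h2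
  exact sub_eq_zero.1 h2

lemma evol_iter (g f : A) (i : ℕ) : evol g (d^[i] f) = d^[i] (evol g f) := by
  induction i with
  | zero => simp
  | succ i ih => rw [Function.iterate_succ_apply', Function.iterate_succ_apply', evol_d, ih]

lemma pderiv_evol (g f : A) {N : ℕ} (hf : OB N f) (k : ℕ) :
    pderiv k (evol g f) = evol g (pderiv k f) +
      ∑ i ∈ Finset.range N, pderiv i f * pderiv k (d^[i] g) := by
  rw [evol_eq_sum g f hf, evol_eq_sum g _ (OB_pderiv hf k), map_sum, ← Finset.sum_add_distrib]
  apply Finset.sum_congr rfl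
  intro i _
  rw [pderiv_mul, pderiv_comm]

/-! ### The product as a finite sum -/

lemma star_eq_sum (f g : A) {N : ℕ} (hf : OB N f) (hg : OB N g) :
    star f g = ∑ i ∈ Finset.range N,
      (pderiv i f * d^[i] g + (-1) ^ i * d^[i] (f * pderiv i g)) := by
  unfold star
  apply finsum_eq_sum_of_support_subset
  intro i hi
  by_contra hc
  have hiN : N ≤ i := by simpa using hc
  apply hi
  simp [hf i hiN, hg i hiN, iterate_map_zero]

lemma star_eq (f g : A) {N : ℕ} (hg : OB N g) :
    star f g = evol g f + ∑ i ∈ Finset.range N, (-1) ^ i * d^[i] (f * pderiv i g) := by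
  obtain ⟨M, hM⟩ := exists_OB f
  have h1 := star_eq_sum f g (OB_mono (le_max_left M N) hM) (OB_mono (le_max_right M N) hg)
  rw [h1, Finset.sum_add_distrib, ← evol_eq_sum g f (OB_mono (le_max_left M N) hM)]
  congr 1
  symm
  apply Finset.sum_subset
  · intro i hi
    simp only [Finset.mem_range] at hi ⊢
    exact lt_of_lt_of_le hi (le_max_right M N)
  · intro i _ hi
    have : N ≤ i := by simpa using hi
    rw [hg i this, mul_zero, iterate_map_zero, mul_zero]

lemma star_add (f₁ f₂ g : A) : star (f₁ + f₂) g = star f₁ g + star f₂ g := by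
  obtain ⟨N, hN⟩ := exists_OB g
  rw [star_eq _ g hN, star_eq _ g hN, star_eq _ g hN, map_add]
  have : ∀ i ∈ Finset.range N, (-1 : A) ^ i * d^[i] ((f₁ + f₂) * pderiv i g) =
      (-1) ^ i * d^[i] (f₁ * pderiv i g) + (-1) ^ i * d^[i] (f₂ * pderiv i g) := by
    intro i _
    rw [add_mul, iterate_map_add, mul_add]
  rw [Finset.sum_congr rfl this, Finset.sum_add_distrib]
  ring

lemma iter_smul (i : ℕ) (c : ℝ) (f : A) : d^[i] (c • f) = c • d^[i] f := by
  induction i with
  | zero => simp
  | succ i ih => rw [Function.iterate_succ_apply', Function.iterate_succ_apply', ih,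
      Derivation.map_smul]

lemma star_smul (c : ℝ) (f g : A) : star (c • f) g = c • star f g := by
  obtain ⟨N, hN⟩ := exists_OB g
  rw [star_eq _ g hN, star_eq _ g hN, Derivation.map_smul, smul_add, Finset.smul_sum]
  congr 1
  apply Finset.sum_congr rfl
  intro i _
  rw [smul_mul_assoc, iter_smul, mul_smul_comm]

end Pool.H84.Jet
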