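import Pool.Agent.H84.Jet.DefsH

namespace Pool.H84.Jet

open MvPolynomial

lemma mem_H (g h : A) : h ∈ H g ↔ star h g = 0 := Iff.rfl

/-! ### The equation for `g = u_m ^ 2` -/

lemma OB_sq (m : ℕ) : OB (m + 1) ((X m : A) ^ 2) := by
  rw [pow_two]; exact OB_mul (OB_X (by omega)) (OB_X (by omega))

lemma pderiv_sq (m : ℕ) : pderiv m ((X m : A) ^ 2) = 2 * X m := by
  rw [pow_two, pderiv_mul, pderiv_X_self]; ring

lemma pderiv_sq_ne {m k : ℕ} (h : k ≠ m) : pderiv k ((X m : A) ^ 2) = 0 := by
  rw [pow_two, pderiv_mul, pderiv_X_of_ne (Ne.symm h)]; ring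

lemma star_sq {m : ℕ} (hm : Odd m) (f : A) :
    star f (X m ^ 2) = evol (X m ^ 2) f - d^[m] (f * (2 * X m)) := by
  rw [star_eq f _ (OB_sq m), Finset.sum_eq_single m]
  · rw [pderiv_sq, hm.neg_one_pow]; ring
  · intro i _ hi
    rw [pderiv_sq_ne hi, mul_zero, iterate_map_zero, mul_zero]
  · intro h
    simp at h

/-! ### Even order: top coefficient -/

lemma star_top {m n : ℕ} (hmn : m < n) {f g : A} (hf : OB (n + 1) f) (hg : OB (m + 1) g)
    (hm : 0 < m) :
    pderiv (n + m) (star f g) = (1 + (-1) ^ m) * (pderiv n f * pderiv m g) := by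
  rw [star_eq f g hg, map_add, pderiv_evol g f hf, hf (n + m) (by omega), map_zero, zero_add,
    Finset.sum_range_succ]
  have h1 : ∑ x ∈ Finset.range n, pderiv x f * pderiv (n + m) (d^[x] g) = 0 := by
    apply Finset.sum_eq_zero
    intro x hx
    have hx' := Finset.mem_range.1 hx
    rw [(OB_iter hg x) (n + m) (by omega), mul_zero]
  rw [h1, zero_add, add_comm n m, top1 hg n, map_sum, Finset.sum_range_succ]
  have h2 : ∑ x ∈ Finset.range m, pderiv (m + n) ((-1 : A) ^ x * d^[x] (f * pderiv x g)) = 0 := by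
    apply Finset.sum_eq_zero
    intro x hx
    have hx' := Finset.mem_range.1 hx
    have hOB : OB (n + 1) (f * pderiv x g) :=
      OB_mul hf (OB_pderiv (OB_mono (by omega) hg) x)
    have : pderiv (m + n) ((-1 : A) ^ x) = 0 := by
      rw [show ((-1 : A) ^ x) = C ((-1 : ℝ) ^ x) by simp, pderiv_C]
    rw [pderiv_mul, this, (OB_iter hOB x) (m + n) (by omega), mul_zero, zero_mul, add_zero]
  rw [h2, zero_add, pderiv_mul]
  have h3 : pderiv (m + n) ((-1 : A) ^ m) = 0 := by
    rw [show ((-1 : A) ^ m) = C ((-1 : ℝ) ^ m) by simp, pderiv_C]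
  have hOB : OB (n + 1) (f * pderiv m g) :=
    OB_mul hf (OB_pderiv (OB_mono (by omega) hg) m)
  rw [h3, add_comm m n, top1 hOB m, pderiv_mul, pderiv_comm n m g, hg n (by omega), map_zero]
  ring

/-! ### The first order condition on the separant -/

lemma X_ne_zero' (m : ℕ) : (X m : A) ≠ 0 := X_ne_zero m

lemma coeff_X_mul_pderiv (m : ℕ) (b : A) (e : ℕ →₀ ℕ) :
    coeff e (X m * pderiv m b) = (e m : ℝ) * coeff e b := by
  classical
  rw [coeff_X_mul']
  split_ifs with h
  · rw [coeff_pderiv]
    have hem : e m ≠ 0 := by simpa using h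
    have h2 : e - Finsupp.single m 1 + Finsupp.single m 1 = e :=
      Finsupp.sub_add_single_one_cancel hem
    rw [h2]
    have h3 : (((e - Finsupp.single m 1 : ℕ →₀ ℕ) m : ℕ) : ℝ) + 1 = (e m : ℝ) := by
      have : (e - Finsupp.single m 1 : ℕ →₀ ℕ) m + 1 = e m := by
        simp; omega
      exact_mod_cast this
    rw [h3]; ring
  · have : e m = 0 := by simpa using h
    rw [this]; simp

/-- Solutions of `m u_m d b = s u_(m+1) b`. -/
lemma sep_solve {m s : ℕ} (hm : 0 < m) (b : A)
    (hb : (m : A) * X m * d b = (s : A) * X (m + 1) * b) :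
    b = 0 ∨ ∃ (q : ℕ) (c : ℝ), m * q = s ∧ b = C c * X m ^ q := by
  have hmA : (m : A) ≠ 0 := by exact_mod_cast hm.ne'
  have hmX : (m : A) * X m ≠ 0 := mul_ne_zero hmA (X_ne_zero' m)
  -- (i) `b` does not involve `u_k`, `k > m`
  have hi : OB (m + 1) b := by
    obtain ⟨M, hM⟩ := exists_OB b
    have key : ∀ t, OB (m + 1 + t) b → OB (m + 1) b := by
      intro t
      induction t with
      | zero => exact id
      | succ t ih =>
        intro ht
        apply ih
        intro k hk
        rcases Nat.lt_or_ge k (m + 1 + t + 1) with hlt | hge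
        · have hk' : k = m + 1 + t := by omega
          subst hk'
          have h1 := congrArg (pderiv (m + 1 + t + 1)) hb
          rw [pderiv_mul, pderiv_mul, pderiv_succ_d, ht (m + 1 + t + 1) (by omega), pderiv_mul,
            pderiv_mul, Derivation.map_natCast, Derivation.map_natCast,
            pderiv_X_of_ne (show m ≠ m + 1 + t + 1 by omega),
            pderiv_X_of_ne (show m + 1 ≠ m + 1 + t + 1 by omega)] at h1
          have ht' : pderiv (m + 1 + t + 1) b = 0 := ht _ (by omega)
          simp only [ht', zero_mul, mul_zero, zero_add, map_zero, add_zero] at h1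
          exact (mul_eq_zero.1 h1).resolve_left hmX
        · exact ht k (by omega)
    apply key M
    exact OB_mono (by omega) hM
  -- (ii)
  have hii : (m : A) * X m * pderiv m b = (s : A) * b := by
    have h1 := congrArg (pderiv (m + 1)) hb
    rw [pderiv_mul, pderiv_mul, pderiv_succ_d, hi (m + 1) (by omega), pderiv_mul,
      pderiv_mul, Derivation.map_natCast, Derivation.map_natCast,
      pderiv_X_of_ne (show m ≠ m + 1 by omega), pderiv_X_self] at h1
    have hi' : pderiv (m + 1) b = 0 := hi _ (by omega)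
    simp only [hi', zero_mul, mul_zero, zero_add, map_zero, add_zero, mul_one] at h1
    exact h1
  -- (iii)
  have hR : d b = X (m + 1) * pderiv m b := by
    have h1 : (m : A) * X m * d b = (m : A) * X m * (X (m + 1) * pderiv m b) := by
      rw [hb]
      linear_combination (-X (m + 1)) * hii
    exact mul_left_cancel₀ hmX h1
  have hiii : ∀ i, i < m → pderiv i b = 0 := by
    have key : ∀ t, ∀ i, i + t + 1 = m → pderiv i b = 0 := by
      intro t
      induction t using Nat.strong_induction_on with
      | _ t ih =>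
        intro i hit
        rcases Nat.eq_zero_or_pos t with h0 | hpos
        · subst h0
          have him : i + 1 = m := by omega
          have h1 : d (pderiv m b) + pderiv i b = X (m + 1) * pderiv m (pderiv m b) := by
            have h2 := congrArg (pderiv m) hR
            rw [← him] at h2 ⊢
            rw [pderiv_succ_d, pderiv_mul, pderiv_X_of_ne (by omega)] at h2
            rw [h2]; ring
          have h3 : (m : A) * X (m + 1) * pderiv m b + (m : A) * X m * d (pderiv m b)
              = (s : A) * d b := by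
            have h4 := congrArg d hii
            rw [d_mul, d_mul, d_mul, d_X, Derivation.map_natCast, Derivation.map_natCast] at h4
            linear_combination h4
          have h5 : (m : A) * pderiv m b + (m : A) * X m * pderiv m (pderiv m b)
              = (s : A) * pderiv m b := by
            have h6 := congrArg (pderiv m) hii
            rw [pderiv_mul, pderiv_mul, pderiv_mul, pderiv_X_self, Derivation.map_natCast,
              Derivation.map_natCast] at h6
            linear_combination h6
          have h7 : (m : A) * X m * pderiv i b = 0 := by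
            have h8 : (m : A) * X m * (d (pderiv m b) + pderiv i b)
              = (m : A) * X m * (X (m + 1) * pderiv m (pderiv m b)) := by rw [h1]
            linear_combination h8 - h3 + X (m + 1) * h5 - (s : A) * hR
          exact (mul_eq_zero.1 h7).resolve_left hmX
        · have h1 : pderiv (i + 1) b = 0 := ih (t - 1) (by omega) (i + 1) (by omega)
          have h2 := congrArg (pderiv (i + 1)) hR
          rw [pderiv_succ_d, pderiv_mul, pderiv_X_of_ne (by omega), pderiv_comm, h1] at h2
          simpa using h2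
    intro i him
    exact key (m - 1 - i) i (by omega)
  -- (iv)
  by_cases hb0 : b = 0
  · exact Or.inl hb0
  right
  have hcoef : ∀ e ∈ b.support, m * e m = s ∧ e = Finsupp.single m (e m) := by
    intro e he
    constructor
    · have h1 := congrArg (coeff e) hii
      rw [mul_assoc, show (m : A) = C (m : ℝ) by simp, show (s : A) = C (s : ℝ) by simp,
        coeff_C_mul, coeff_C_mul, coeff_X_mul_pderiv] at h1
      have h2 : coeff e b ≠ 0 := by simpa [mem_support_iff] using he
      have h3 : (m : ℝ) * (e m : ℝ) = s := by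
        apply mul_right_cancel₀ h2
        linarith
      exact_mod_cast h3
    · ext k
      by_cases hkm : k = m
      · subst hkm; simp
      · rw [Finsupp.single_apply, if_neg (Ne.symm hkm)]
        have h1 : pderiv k b = 0 := by
          rcases Nat.lt_or_ge k m with h | h
          · exact hiii k h
          · exact hi k (by omega)
        have h2 := (pderiv_eq_zero_iff k b).1 h1
        by_contra hc
        apply h2
        rw [mem_vars_iff_mem_support]
        exact ⟨e, he, by simpa using hc⟩
  obtain ⟨e0, he0⟩ : b.support.Nonempty := by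
    rw [Finset.nonempty_iff_ne_empty]
    intro hc
    exact hb0 (support_eq_empty.1 hc)
  refine ⟨e0 m, coeff e0 b, (hcoef e0 he0).1, ?_⟩
  have hq : ∀ e ∈ b.support, e = e0 := by
    intro e he
    have h1 := (hcoef e he).1
    have h2 := (hcoef e0 he0).1
    have h3 : e m = e0 m := by
      apply Nat.eq_of_mul_eq_mul_left hm
      rw [h1, h2]
    rw [(hcoef e he).2, (hcoef e0 he0).2, h3]
  have hsupp : b.support = {e0} := by
    apply Finset.eq_singleton_iff_unique_mem.2 ⟨he0, hq⟩
  have h1 := b.as_sum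
  rw [hsupp, Finset.sum_singleton] at h1
  rw [C_mul_X_pow_eq_monomial, ← (hcoef e0 he0).2]
  exact h1

lemma two_eq : (2 : A) = C 2 := (map_ofNat (C : ℝ →+* MvPolynomial ℕ ℝ) 2).symm

lemma two_X_eq (m : ℕ) : (2 * X m : A) = C 2 * X m := by
  rw [two_eq]

lemma d_two_mul (f : A) : d (2 * f) = 2 * d f := by
  rw [two_eq, d_mul, d_C]; ring

lemma pderiv_two_mul (k : ℕ) (f : A) : pderiv k (2 * f) = 2 * pderiv k f := by
  rw [two_eq, pderiv_mul, pderiv_C]; ring

lemma pderiv_mul_two_X {k m : ℕ} (h : k ≠ m) (f : A) :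
    pderiv k (f * (2 * X m)) = pderiv k f * (2 * X m) := by
  rw [pderiv_mul, pderiv_two_mul, pderiv_X_of_ne (Ne.symm h)]; ring

lemma pderiv_mul_two_X_self (m : ℕ) (f : A) :
    pderiv m (f * (2 * X m)) = pderiv m f * (2 * X m) + 2 * f := by
  rw [pderiv_mul, pderiv_two_mul, pderiv_X_self]; ring

/-- First condition on the separant `b = ∂f/∂u_n` of an element of `H (u_m^2)`, `n > m + 1`. -/
lemma sep_cond {m n : ℕ} (hm : 2 ≤ m) (hn : m + 1 < n) {f : A} (hf : OB (n + 1) f)
    (hE : evol (X m ^ 2) f = d^[m] (f * (2 * X m))) :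
    (m : A) * X m * d (pderiv n f) = ((n - m : ℕ) : A) * X (m + 1) * pderiv n f := by
  obtain ⟨i, rfl⟩ : ∃ i, m = i + 1 := ⟨m - 1, by omega⟩
  obtain ⟨N, rfl⟩ : ∃ N, n = N + 1 := ⟨n - 1, by omega⟩
  have h1 := congrArg (pderiv (N + 1 + i)) hE
  have hOBh : OB (N + 2) (f * (2 * X (i + 1))) := by
    apply OB_mul hf
    rw [two_X_eq]
    exact OB_mul (OB_C _ _) (OB_X (by omega))
  rw [top2 hOBh i, pderiv_evol _ f hf, hf (N + 1 + i) (by omega), map_zero, zero_add,
    Finset.sum_range_succ, Finset.sum_range_succ] at h1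
  have h2 : ∑ x ∈ Finset.range N, pderiv x f * pderiv (N + 1 + i) (d^[x] ((X (i + 1) : A) ^ 2)) = 0 := by
    apply Finset.sum_eq_zero
    intro x hx
    have hx' := Finset.mem_range.1 hx
    rw [(OB_iter (OB_sq (i + 1)) x) (N + 1 + i) (by omega), mul_zero]
  have h3 : pderiv (N + 1 + i) (d^[N] ((X (i + 1) : A) ^ 2)) = 2 * X (i + 1) := by
    rw [show N + 1 + i = (i + 1) + N by ring, top1 (OB_sq (i + 1)) N, pderiv_sq]
  have h4 : pderiv (N + 1 + i) (d^[N + 1] ((X (i + 1) : A) ^ 2)) =
      ((N : A) + 1) * (2 * X (i + 1 + 1)) := by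
    rw [show N + 1 + i = i + 1 + N by ring, top2 (OB_sq (i + 1)) N, pderiv_sq,
      pderiv_sq_ne (by omega), d_two_mul, d_X, add_zero]
  rw [h2, h3, h4, pderiv_mul_two_X (by omega), pderiv_mul_two_X (by omega), d_mul, d_two_mul,
    d_X, zero_add] at h1
  have h5 : ((N + 1 - (i + 1) : ℕ) : A) = (N : A) - (i : A) := by
    rw [show N + 1 - (i + 1) = N - i by omega, Nat.cast_sub (by omega)]
  rw [h5]
  push_cast
  have h6 : (2 : A) ≠ 0 := by norm_num
  apply mul_left_cancel₀ h6
  linear_combination -h1

/-! ### Evaluation along a polynomial `U(x)` and linearisation -/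

section Ev

variable (U : Polynomial ℝ)

/-- Evaluation of a jet polynomial along `u = U(x)`. -/
noncomputable def ev : A →ₐ[ℝ] Polynomial ℝ := aeval fun i => Polynomial.derivative^[i] U

@[simp] lemma ev_X (i : ℕ) : ev U (X i) = Polynomial.derivative^[i] U := aeval_X _ _

lemma ev_d (h : A) : ev U (d h) = Polynomial.derivative (ev U h) := by
  induction h using MvPolynomial.induction_on with
  | C a => simp [ev]
  | add p q hp hq => simp [hp, hq]
  | mul_X p i hp =>
    rw [d_mul, map_add, map_mul, map_mul, map_mul, hp, Polynomial.derivative_mul, d_X, ev_X, ev_X,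
      Function.iterate_succ_apply']

lemma ev_iter (h : A) (i : ℕ) : ev U (d^[i] h) = Polynomial.derivative^[i] (ev U h) := by
  induction i with
  | zero => simp
  | succ i ih => rw [Function.iterate_succ_apply', Function.iterate_succ_apply', ev_d, ih]

/-- Linearisation of `h` at `U` in direction `w` (truncated at `N`). -/
noncomputable def lin (N : ℕ) (w : Polynomial ℝ) (h : A) : Polynomial ℝ :=
  ∑ k ∈ Finset.range N, ev U (pderiv k h) * Polynomial.derivative^[k] w

lemma lin_mono {N M : ℕ} (hNM : N ≤ M) (w : Polynomial ℝ) {h : A} (hh : OB N h) :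
    lin U M w h = lin U N w h := by
  unfold lin
  symm
  apply Finset.sum_subset
  · intro i hi
    simp only [Finset.mem_range] at hi ⊢
    omega
  · intro i _ hi
    have : N ≤ i := by simpa using hi
    rw [hh i this, map_zero, zero_mul]

lemma lin_d_aux {N : ℕ} (w : Polynomial ℝ) {h : A} (hh : OB N h) :
    lin U (N + 1) w (d h) = Polynomial.derivative (lin U N w h) := by
  have h0 : lin U N w h = lin U (N + 1) w h := (lin_mono U (Nat.le_succ N) w hh).symm
  have h1 : Polynomial.derivative (lin U (N + 1) w h) =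
      ∑ k ∈ Finset.range (N + 1), ev U (d (pderiv k h)) * Polynomial.derivative^[k] w +
      ∑ k ∈ Finset.range (N + 1), ev U (pderiv k h) * Polynomial.derivative^[k + 1] w := by
    unfold lin
    rw [map_sum, ← Finset.sum_add_distrib]
    apply Finset.sum_congr rfl
    intro k _
    rw [Polynomial.derivative_mul, ev_d, Function.iterate_succ_apply']
  rw [h0, h1]
  have h3 : lin U (N + 1) w (d h) =
      (∑ k ∈ Finset.range N, ev U (pderiv (k + 1) (d h)) * Polynomial.derivative^[k + 1] w) +
      ev U (pderiv 0 (d h)) * Polynomial.derivative^[0] w := by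
    unfold lin
    exact Finset.sum_range_succ' _ N
  have h4 : ∑ k ∈ Finset.range (N + 1), ev U (d (pderiv k h)) * Polynomial.derivative^[k] w =
      (∑ k ∈ Finset.range N, ev U (d (pderiv (k + 1) h)) * Polynomial.derivative^[k + 1] w) +
      ev U (d (pderiv 0 h)) * Polynomial.derivative^[0] w :=
    Finset.sum_range_succ' _ N
  have h5 : ∑ k ∈ Finset.range (N + 1), ev U (pderiv k h) * Polynomial.derivative^[k + 1] w =
      (∑ k ∈ Finset.range N, ev U (pderiv k h) * Polynomial.derivative^[k + 1] w) +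
      ev U (pderiv N h) * Polynomial.derivative^[N + 1] w :=
    Finset.sum_range_succ _ N
  rw [h3, h4, h5, hh N le_rfl, map_zero, zero_mul, add_zero, pderiv_zero_d]
  have h2 : ∀ k ∈ Finset.range N, ev U (pderiv (k + 1) (d h)) * Polynomial.derivative^[k + 1] w =
      ev U (d (pderiv (k + 1) h)) * Polynomial.derivative^[k + 1] w +
      ev U (pderiv k h) * Polynomial.derivative^[k + 1] w := by
    intro k _
    rw [pderiv_succ_d, map_add, add_mul]
  rw [Finset.sum_congr rfl h2, Finset.sum_add_distrib]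
  ring

lemma lin_d {N M : ℕ} (hNM : N + 1 ≤ M) (w : Polynomial ℝ) {h : A} (hh : OB N h) :
    lin U M w (d h) = Polynomial.derivative (lin U M w h) := by
  rw [lin_mono U hNM w (OB_d hh), lin_mono U (by omega) w hh, lin_d_aux U w hh]

lemma lin_iter {N M : ℕ} (w : Polynomial ℝ) {h : A} (hh : OB N h) (i : ℕ) (hNM : N + i ≤ M) :
    lin U M w (d^[i] h) = Polynomial.derivative^[i] (lin U M w h) := by
  induction i with
  | zero => simp
  | succ i ih =>
    rw [Function.iterate_succ_apply', Function.iterate_succ_apply',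
      lin_d U (by omega) w (OB_iter hh i), ih (by omega)]

/-- Linearisation of an evolutionary derivative. -/
lemma lin_evol {N M : ℕ} (w : Polynomial ℝ) {f g : A} (hf : OB N f)
    {K : ℕ} (hg : OB K g) (hM : K + N ≤ M) :
    lin U M w (evol g f) =
      ∑ k ∈ Finset.range N, ev U (evol g (pderiv k f)) * Polynomial.derivative^[k] w +
      ∑ i ∈ Finset.range N, ev U (pderiv i f) * Polynomial.derivative^[i] (lin U M w g) := by
  have h1 : lin U M w (evol g f) =
      ∑ k ∈ Finset.range M, ev U (evol g (pderiv k f)) * Polynomial.derivative^[k] w +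
      ∑ k ∈ Finset.range M, (∑ i ∈ Finset.range N,
        ev U (pderiv i f) * ev U (pderiv k (d^[i] g))) * Polynomial.derivative^[k] w := by
    unfold lin
    rw [← Finset.sum_add_distrib]
    apply Finset.sum_congr rfl
    intro k _
    rw [pderiv_evol g f hf k, map_add, add_mul, map_sum]
    simp only [map_mul]
  have hA : ∑ k ∈ Finset.range M, ev U (evol g (pderiv k f)) * Polynomial.derivative^[k] w =
      ∑ k ∈ Finset.range N, ev U (evol g (pderiv k f)) * Polynomial.derivative^[k] w := by
    symm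
    apply Finset.sum_subset
    · intro i hi
      simp only [Finset.mem_range] at hi ⊢
      omega
    · intro i _ hi
      have : N ≤ i := by simpa using hi
      rw [hf i this, map_zero, map_zero, zero_mul]
  have hB : ∑ k ∈ Finset.range M, (∑ i ∈ Finset.range N,
        ev U (pderiv i f) * ev U (pderiv k (d^[i] g))) * Polynomial.derivative^[k] w =
      ∑ i ∈ Finset.range N, ev U (pderiv i f) * Polynomial.derivative^[i] (lin U M w g) := by
    simp only [Finset.sum_mul]
    rw [Finset.sum_comm]
    apply Finset.sum_congr rfl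
    intro i hi
    have hi' := Finset.mem_range.1 hi
    rw [← lin_iter U w hg i (by omega)]
    unfold lin
    rw [Finset.mul_sum]
    apply Finset.sum_congr rfl
    intro k _
    ring
  rw [h1, hA, hB]

lemma lin_sq {m M : ℕ} (hU : Polynomial.derivative^[m] U = Polynomial.X ^ m) (hM : m < M)
    (w : Polynomial ℝ) :
    lin U M w (X m ^ 2) = 2 * Polynomial.X ^ m * Polynomial.derivative^[m] w := by
  unfold lin
  rw [Finset.sum_eq_single m]
  · rw [pderiv_sq, map_mul, map_ofNat, ev_X, hU]
  · intro i _ hi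
    rw [pderiv_sq_ne hi, map_zero, zero_mul]
  · intro h
    exact absurd (Finset.mem_range.2 hM) h

lemma lin_mul_two_X {m M : ℕ} (hU : Polynomial.derivative^[m] U = Polynomial.X ^ m) (hM : m < M)
    (w : Polynomial ℝ) (f : A) :
    lin U M w (f * (2 * X m)) = Polynomial.X ^ m * (2 * lin U M w f) +
      2 * ev U f * Polynomial.derivative^[m] w := by
  unfold lin
  have h1 : ∀ k ∈ Finset.range M, ev U (pderiv k (f * (2 * X m))) * Polynomial.derivative^[k] w =
      Polynomial.X ^ m * (2 * (ev U (pderiv k f) * Polynomial.derivative^[k] w)) +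
      (if k = m then 2 * ev U f * Polynomial.derivative^[m] w else 0) := by
    intro k _
    by_cases hk : k = m
    · subst hk
      rw [pderiv_mul_two_X_self, map_add, map_mul, map_mul, map_mul, map_ofNat, ev_X, hU, if_pos rfl]
      ring
    · rw [pderiv_mul_two_X hk, map_mul, map_mul, map_ofNat, ev_X, hU, if_neg hk]
      ring
  rw [Finset.sum_congr rfl h1, Finset.sum_add_distrib, Finset.sum_ite_eq' (Finset.range M) m,
    if_pos (Finset.mem_range.2 hM), Finset.mul_sum, Finset.mul_sum]

/-- The coefficient identity obtained by linearising along `u_m = x^m` in direction `x^(m+t)`. -/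
lemma key_identity {m n : ℕ} (hU : Polynomial.derivative^[m] U = Polynomial.X ^ m) {f : A}
    (hf : OB (n + 1) f) (hE : evol (X m ^ 2) f = d^[m] (f * (2 * X m))) (t : ℕ) :
    ∑ k ∈ Finset.range (n + 1), ((m + t).descFactorial k : ℝ) *
      (if m ≤ k then (ev U (evol (X m ^ 2) (pderiv k f))).coeff (k - m) else 0) =
    2 * ((m + t).descFactorial m : ℝ) ^ 2 * (ev U f).coeff m := by
  set w : Polynomial ℝ := Polynomial.X ^ (m + t) with hw
  set M : ℕ := (m + 1) + (n + 1) + m with hM
  set c : ℝ := ((m + t).descFactorial m : ℝ) with hc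
  have hwm : Polynomial.derivative^[m] w = Polynomial.C c * Polynomial.X ^ t := by
    rw [hw, Polynomial.iterate_derivative_X_pow_eq_natCast_mul, Nat.add_sub_cancel_left, hc]
    simp
  have hOBh : OB (m + 1 + (n + 1)) (f * (2 * X m)) := by
    apply OB_mul (OB_mono (by omega) hf)
    rw [two_X_eq]
    exact OB_mul (OB_C _ _) (OB_X (by omega))
  have h1 : lin U M w (evol (X m ^ 2) f) = lin U M w (d^[m] (f * (2 * X m))) := by rw [hE]
  rw [lin_iter U w hOBh m (by omega), lin_mul_two_X U hU (by omega),
    lin_evol U w hf (OB_sq m) (by omega), lin_sq U hU (by omega), hwm] at h1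
  have h2 : (2 * Polynomial.X ^ m * (Polynomial.C c * Polynomial.X ^ t) : Polynomial ℝ) =
      Polynomial.C (2 * c) * w := by
    rw [hw, pow_add, Polynomial.C_mul, show (Polynomial.C (2 : ℝ) : Polynomial ℝ) = 2 from
      map_ofNat Polynomial.C 2]
    ring
  have h3 : ∑ i ∈ Finset.range (n + 1), ev U (pderiv i f) *
      Polynomial.derivative^[i] (2 * Polynomial.X ^ m * (Polynomial.C c * Polynomial.X ^ t)) =
      Polynomial.C (2 * c) * lin U M w f := by
    rw [h2, lin_mono U (N := n + 1) (by omega) w hf]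
    unfold lin
    rw [Finset.mul_sum]
    apply Finset.sum_congr rfl
    intro i _
    rw [Polynomial.iterate_derivative_C_mul]
    ring
  rw [h3] at h1
  have h4 := congrArg (fun p => Polynomial.coeff p t) h1
  simp only [Polynomial.coeff_add, Polynomial.coeff_C_mul, Polynomial.coeff_iterate_derivative] at h4
  have h5 : (Polynomial.X ^ m * (2 * lin U M w f)).coeff (t + m) = 2 * (lin U M w f).coeff t := by
    rw [Polynomial.coeff_X_pow_mul, show (2 : Polynomial ℝ) = Polynomial.C 2 from
      (map_ofNat Polynomial.C 2).symm, Polynomial.coeff_C_mul]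
  have h6 : (2 * ev U f * (Polynomial.C c * Polynomial.X ^ t)).coeff (t + m) =
      2 * c * (ev U f).coeff m := by
    rw [show (2 * ev U f * (Polynomial.C c * Polynomial.X ^ t) : Polynomial ℝ) =
      Polynomial.C (2 * c) * (Polynomial.X ^ t * ev U f) by
        rw [Polynomial.C_mul, show (Polynomial.C (2 : ℝ) : Polynomial ℝ) = 2 from
          map_ofNat Polynomial.C 2]
        ring]
    rw [Polynomial.coeff_C_mul, add_comm t m, Polynomial.coeff_X_pow_mul]
  have h7 : ((t + m).descFactorial m : ℝ) = c := by rw [hc, add_comm]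
  rw [h5, h6, nsmul_eq_mul, h7, Polynomial.finsetSum_coeff] at h4
  have h8 : ∀ k ∈ Finset.range (n + 1),
      (ev U (evol (X m ^ 2) (pderiv k f)) * Polynomial.derivative^[k] w).coeff t =
      ((m + t).descFactorial k : ℝ) *
      (if m ≤ k then (ev U (evol (X m ^ 2) (pderiv k f))).coeff (k - m) else 0) := by
    intro k _
    rw [hw, Polynomial.iterate_derivative_X_pow_eq_C_mul]
    set p := ev U (evol (X m ^ 2) (pderiv k f))
    rw [show p * (Polynomial.C ((m + t).descFactorial k : ℝ) * Polynomial.X ^ (m + t - k)) =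
      Polynomial.C ((m + t).descFactorial k : ℝ) * (p * Polynomial.X ^ (m + t - k)) by ring,
      Polynomial.coeff_C_mul, Polynomial.coeff_mul_X_pow']
    rcases Nat.lt_or_ge (m + t) k with hlt | hge
    · rw [Nat.descFactorial_eq_zero_iff_lt.2 hlt]; simp
    · by_cases hk : m ≤ k
      · rw [if_pos hk, if_pos (by omega), show t - (m + t - k) = k - m by omega]
      · rw [if_neg hk, if_neg (by omega)]
  rw [Finset.sum_congr rfl h8] at h4
  linear_combination h4

end Ev

/-- A linear relation between falling factorials. -/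
lemma falling_top {m n : ℕ} (hn : 2 * m < n) (c : ℕ → ℝ) (φ : ℝ)
    (h : ∀ t : ℕ, ∑ k ∈ Finset.range (n + 1), ((m + t).descFactorial k : ℝ) * c k =
      2 * ((m + t).descFactorial m : ℝ) ^ 2 * φ) : c n = 0 := by
  set P : Polynomial ℝ := ∑ k ∈ Finset.range (n + 1), Polynomial.C (c k) * descPochhammer ℝ k -
    Polynomial.C (2 * φ) * (descPochhammer ℝ m) ^ 2 with hP
  have hroot : ∀ t : ℕ, P.IsRoot (((m + t : ℕ) : ℝ)) := by
    intro t
    rw [Polynomial.IsRoot, hP, Polynomial.eval_sub, Polynomial.eval_finsetSum]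
    simp only [Polynomial.eval_mul, Polynomial.eval_C, Polynomial.eval_pow,
      descPochhammer_eval_eq_descFactorial]
    have := h t
    rw [sub_eq_zero]
    calc ∑ x ∈ Finset.range (n + 1), c x * ((m + t).descFactorial x : ℝ)
        = ∑ k ∈ Finset.range (n + 1), ((m + t).descFactorial k : ℝ) * c k :=
          Finset.sum_congr rfl fun _ _ => mul_comm _ _
      _ = 2 * φ * ((m + t).descFactorial m : ℝ) ^ 2 := by rw [this]; ring
  have hP0 : P = 0 := by
    apply Polynomial.eq_zero_of_infinite_isRoot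
    apply Set.Infinite.mono (s := Set.range fun t : ℕ => ((m + t : ℕ) : ℝ))
    · rintro _ ⟨t, rfl⟩
      exact hroot t
    · apply Set.infinite_range_of_injective
      intro a b hab
      have hab' : ((m + a : ℕ) : ℝ) = ((m + b : ℕ) : ℝ) := hab
      have : m + a = m + b := by exact_mod_cast hab'
      omega
  have hcoef := congrArg (fun p => Polynomial.coeff p n) hP0
  simp only [hP, Polynomial.coeff_sub, Polynomial.finsetSum_coeff, Polynomial.coeff_C_mul,
    Polynomial.coeff_zero] at hcoef
  have h1 : ((descPochhammer ℝ m) ^ 2).coeff n = 0 := by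
    apply Polynomial.coeff_eq_zero_of_natDegree_lt
    calc ((descPochhammer ℝ m) ^ 2).natDegree ≤ 2 * (descPochhammer ℝ m).natDegree :=
          Polynomial.natDegree_pow_le
      _ = 2 * m := by rw [descPochhammer_natDegree]
      _ < n := hn
  have h2 : (descPochhammer ℝ n).coeff n = 1 := by
    have := (monic_descPochhammer ℝ n)
    rw [Polynomial.Monic, Polynomial.leadingCoeff, descPochhammer_natDegree] at this
    exact this
  rw [Finset.sum_range_succ, h1, h2] at hcoef
  have h3 : ∑ x ∈ Finset.range n, c x * (descPochhammer ℝ x).coeff n = 0 := by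
    apply Finset.sum_eq_zero
    intro x hx
    have hx' := Finset.mem_range.1 hx
    rw [Polynomial.coeff_eq_zero_of_natDegree_lt (by rw [descPochhammer_natDegree]; exact hx'),
      mul_zero]
  rw [h3] at hcoef
  linarith

/-- The potential `U` with `U^(m) = x^m`. -/
noncomputable def Upot (m : ℕ) : Polynomial ℝ :=
  Polynomial.C (((2 * m).descFactorial m : ℝ)⁻¹) * Polynomial.X ^ (2 * m)

lemma Upot_deriv (m : ℕ) : Polynomial.derivative^[m] (Upot m) = Polynomial.X ^ m := by
  unfold Upot
  rw [Polynomial.iterate_derivative_C_mul, Polynomial.iterate_derivative_X_pow_eq_C_mul,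
    ← mul_assoc, ← Polynomial.C_mul, inv_mul_cancel₀, Polynomial.C_1, one_mul,
    show 2 * m - m = m by omega]
  have : (2 * m).descFactorial m ≠ 0 := by
    rw [Ne, Nat.descFactorial_eq_zero_iff_lt]
    omega
  exact_mod_cast this

/-- No element of `H (u_m^2)` has order `n > 2 m`. -/
lemma no_high {m n : ℕ} (hm : 2 ≤ m) (hn : 2 * m < n) {f : A} (hf : OB (n + 1) f)
    (hE : evol (X m ^ 2) f = d^[m] (f * (2 * X m))) : pderiv n f = 0 := by
  rcases sep_solve (by omega) (pderiv n f) (sep_cond hm (by omega) hf hE) with h0 | ⟨q, c, hq, hb⟩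
  · exact h0
  have hq2 : 2 ≤ q := by
    by_contra hc
    have : q ≤ 1 := by omega
    have : m * q ≤ m * 1 := Nat.mul_le_mul_left m this
    omega
  have hU := Upot_deriv m
  have h1 := falling_top hn _ _ (key_identity (Upot m) hU hf hE)
  rw [if_pos (by omega), hb] at h1
  have h2 : evol (X m ^ 2) (C c * X m ^ q) =
      C (c * q) * (X m ^ (q - 1) * d^[m] (X m ^ 2)) := by
    rw [Derivation.leibniz, Derivation.leibniz_pow, evol_X,
      show evol (X m ^ 2) (C c) = 0 from derivation_C _ _]
    simp only [smul_eq_mul, nsmul_eq_mul, mul_zero, add_zero, C_mul]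
    rw [show (C (q : ℝ) : A) = (q : A) by simp]
    ring
  have h3 : ev (Upot m) (X m ^ (q - 1) * d^[m] (X m ^ 2)) =
      Polynomial.C ((2 * m).descFactorial m : ℝ) * Polynomial.X ^ (m * q) := by
    rw [map_mul, map_pow, ev_iter, map_pow, ev_X, hU, ← pow_mul, ← pow_mul, mul_comm m 2,
      Polynomial.iterate_derivative_X_pow_eq_C_mul, show 2 * m - m = m by omega]
    obtain ⟨p, rfl⟩ : ∃ p, q = p + 1 := ⟨q - 1, by omega⟩
    rw [Nat.add_sub_cancel]
    ring
  rw [h2, map_mul, h3, show ev (Upot m) (C (c * q)) = Polynomial.C (c * q) by simp [ev],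
    ← mul_assoc, ← Polynomial.C_mul, Polynomial.coeff_C_mul, ← hq, Polynomial.coeff_X_pow,
    if_pos rfl, mul_one] at h1
  have h4 : ((2 * m).descFactorial m : ℝ) ≠ 0 := by
    have : (2 * m).descFactorial m ≠ 0 := by
      rw [Ne, Nat.descFactorial_eq_zero_iff_lt]
      omega
    exact_mod_cast this
  have h5 : (q : ℝ) ≠ 0 := by
    have : q ≠ 0 := by omega
    exact_mod_cast this
  have h6 : c = 0 := by
    rcases mul_eq_zero.1 h1 with h | h
    · rcases mul_eq_zero.1 h with h | h
      · exact h
      · exact absurd h h5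
    · exact absurd h h4
  rw [hb, h6]; simp

/-! ### Low orders -/

lemma constantCoeff_d (h : A) : constantCoeff (d h) = 0 := by
  induction h using MvPolynomial.induction_on with
  | C a => simp
  | add p q hp hq => rw [map_add, map_add, hp, hq, add_zero]
  | mul_X p i _ => rw [d_mul, d_X]; simp

lemma ker_d {h : A} (hh : d h = 0) : ∃ c : ℝ, h = C c := by
  obtain ⟨M, hM⟩ := exists_OB h
  have key : ∀ t, OB t h → OB 0 h := by
    intro t
    induction t with
    | zero => exact id
    | succ t ih =>
      intro ht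
      apply ih
      intro k hk
      rcases Nat.lt_or_ge k (t + 1) with hlt | hge
      · have hk' : k = t := by omega
        subst hk'
        have h1 := congrArg (pderiv (k + 1)) hh
        rw [pderiv_succ_d, ht (k + 1) (by omega), map_zero, map_zero, zero_add] at h1
        exact h1
      · exact ht k hge
  have h0 := key M hM
  have h1 : h ∈ supported ℝ (∅ : Set ℕ) := by
    rw [mem_supported]
    intro k hk
    exact absurd hk ((pderiv_eq_zero_iff k h).1 (h0 k (Nat.zero_le k)))
  rw [supported_empty, Algebra.mem_bot] at h1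
  obtain ⟨c, hc⟩ := h1
  exact ⟨c, hc.symm⟩

lemma low_order {m : ℕ} (hm : 3 ≤ m) {f : A} (hf : OB (m + 2) f)
    (hE : evol (X m ^ 2) f = d^[m] (f * (2 * X m))) : ∃ c : ℝ, f = C c * X (m + 1) := by
  obtain ⟨j, rfl⟩ : ∃ j, m = j + 3 := ⟨m - 3, by omega⟩
  set b := pderiv (j + 3 + 1) f with hb
  have hOBh : OB (j + 3 + 2) (f * (2 * X (j + 3))) := by
    apply OB_mul hf
    rw [two_X_eq]
    exact OB_mul (OB_C _ _) (OB_X (by omega))
  have h2 : (2 : A) ≠ 0 := by norm_num
  have hX : (X (j + 3) : A) ≠ 0 := X_ne_zero' _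
  -- Step A
  have hA : f = X (j + 3 + 1) * b - ((j : A) + 3) * X (j + 3) * d b := by
    have h1 := congrArg (pderiv (j + 3 + 1 + (j + 2))) hE
    rw [top2 hOBh (j + 2), pderiv_evol _ f hf, hf _ (by omega), map_zero, zero_add,
      Finset.sum_range_succ, Finset.sum_range_succ] at h1
    have e1 : ∑ x ∈ Finset.range (j + 3), pderiv x f *
        pderiv (j + 3 + 1 + (j + 2)) (d^[x] ((X (j + 3) : A) ^ 2)) = 0 := by
      apply Finset.sum_eq_zero
      intro x hx
      have hx' := Finset.mem_range.1 hx
      rw [(OB_iter (OB_sq (j + 3)) x) _ (by omega), mul_zero]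
    have e2 : pderiv (j + 3 + 1 + (j + 2)) (d^[j + 3] ((X (j + 3) : A) ^ 2)) = 2 * X (j + 3) := by
      rw [show j + 3 + 1 + (j + 2) = (j + 3) + (j + 3) by ring, top1 (OB_sq (j + 3)), pderiv_sq]
    have e3 : pderiv (j + 3 + 1 + (j + 2)) (d^[j + 3 + 1] ((X (j + 3) : A) ^ 2)) =
        ((j : A) + 4) * (2 * X (j + 3 + 1)) := by
      rw [show j + 3 + 1 + (j + 2) = (j + 2) + 1 + (j + 3) by ring,
        top2 (N := j + 2) (OB_sq (j + 3)) (j + 3),
        show j + 2 + 1 = j + 3 by ring, pderiv_sq, pderiv_sq_ne (by omega), d_two_mul, d_X,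
        add_zero]
      push_cast
      ring
    rw [e1, e2, e3, pderiv_mul_two_X (by omega), pderiv_mul_two_X_self, ← hb, d_mul, d_two_mul,
      d_X] at h1
    apply mul_left_cancel₀ h2
    push_cast at h1
    linear_combination -h1
  -- Step B
  have hb2 : OB (j + 3 + 2) b := OB_pderiv hf _
  have hb1 : pderiv (j + 3 + 1) b = 0 := by
    have h1 := congrArg (pderiv (j + 3 + 1 + 1)) hA
    rw [hf _ (by omega), map_sub, pderiv_mul, pderiv_mul, pderiv_mul, pderiv_succ_d,
      hb2 _ (by omega), pderiv_X_of_ne (by omega), pderiv_X_of_ne (by omega), map_add,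
      Derivation.map_natCast, show ((3 : A)) = ((3 : ℕ) : A) by norm_num,
      Derivation.map_natCast] at h1
    have h3 : ((j : A) + 3) * X (j + 3) * pderiv (j + 3 + 1) b = 0 := by
      simp only [map_zero] at h1
      push_cast at h1
      linear_combination h1
    have h4 : ((j : A) + 3) ≠ 0 := by exact_mod_cast (show (j + 3 : ℕ) ≠ 0 by omega)
    exact (mul_eq_zero.1 h3).resolve_left (mul_ne_zero h4 hX)
  have hjA : ((j : A) + 3) ≠ 0 := by exact_mod_cast (show (j + 3 : ℕ) ≠ 0 by omega)
  have hdj : ∀ k, pderiv k ((j : A) + 3) = 0 := by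
    intro k
    rw [map_add, Derivation.map_natCast, show ((3 : A)) = ((3 : ℕ) : A) by norm_num,
      Derivation.map_natCast, add_zero]
  have hddj : d ((j : A) + 3) = 0 := by
    rw [map_add, Derivation.map_natCast, show ((3 : A)) = ((3 : ℕ) : A) by norm_num,
      Derivation.map_natCast, add_zero]
  have hb0 : pderiv (j + 3) b = 0 := by
    have h1 := congrArg (pderiv (j + 3 + 1)) hA
    rw [← hb, map_sub, pderiv_mul, pderiv_mul, pderiv_mul, pderiv_succ_d, hb1,
      pderiv_X_self, pderiv_X_of_ne (by omega), hdj, map_zero] at h1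
    have h3 : ((j : A) + 3) * X (j + 3) * pderiv (j + 3) b = 0 := by
      linear_combination h1
    exact (mul_eq_zero.1 h3).resolve_left (mul_ne_zero hjA hX)
  -- Step C
  set β := pderiv (j + 2) b with hβ
  have hfm : pderiv (j + 3) f = -(((j : A) + 3) * (d b + X (j + 3) * β)) := by
    have h1 := congrArg (pderiv (j + 3)) hA
    rw [map_sub, pderiv_mul, pderiv_mul, pderiv_mul, show j + 3 = (j + 2) + 1 by ring,
      pderiv_succ_d, show (j + 2) + 1 = j + 3 by ring, hb0, pderiv_X_self,
      pderiv_X_of_ne (by omega), hdj, map_zero, ← hβ] at h1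
    rw [h1]; ring
  -- Step D
  have hD := congrArg (pderiv (j + 2 + 2 + (j + 1))) hE
  rw [top3 (N := j + 2) hOBh (j + 1), pderiv_evol _ f hf, hf _ (by omega), map_zero, zero_add,
    Finset.sum_range_succ, Finset.sum_range_succ, Finset.sum_range_succ] at hD
  have e1 : ∑ x ∈ Finset.range (j + 2), pderiv x f *
      pderiv (j + 2 + 2 + (j + 1)) (d^[x] ((X (j + 3) : A) ^ 2)) = 0 := by
    apply Finset.sum_eq_zero
    intro x hx
    have hx' := Finset.mem_range.1 hx
    rw [(OB_iter (OB_sq (j + 3)) x) _ (by omega), mul_zero]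
  have e2 : pderiv (j + 2 + 2 + (j + 1)) (d^[j + 2] ((X (j + 3) : A) ^ 2)) = 2 * X (j + 3) := by
    rw [show j + 2 + 2 + (j + 1) = (j + 3) + (j + 2) by ring, top1 (OB_sq (j + 3)), pderiv_sq]
  have e3 : pderiv (j + 2 + 2 + (j + 1)) (d^[j + 2 + 1] ((X (j + 3) : A) ^ 2)) =
      ((j : A) + 3) * (2 * X (j + 3 + 1)) := by
    rw [show j + 2 + 2 + (j + 1) = (j + 2) + 1 + (j + 2) by ring,
      top2 (N := j + 2) (OB_sq (j + 3)) (j + 2),
      show j + 2 + 1 = j + 3 by ring, pderiv_sq, pderiv_sq_ne (by omega), d_two_mul, d_X,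
      add_zero]
    push_cast
    ring
  have e4 : pderiv (j + 2 + 2 + (j + 1)) (d^[j + 2 + 1 + 1] ((X (j + 3) : A) ^ 2)) =
      (((j + 4).choose 2 : ℕ) : A) * (2 * X (j + 3 + 1 + 1)) := by
    rw [show j + 2 + 2 + (j + 1) = (j + 1) + 2 + (j + 2) by ring,
      show j + 2 + 1 + 1 = (j + 2) + 2 by ring,
      top3 (N := j + 1) (OB_sq (j + 3)) (j + 2),
      show j + 1 + 2 = j + 3 by ring, pderiv_sq, pderiv_sq_ne (by omega),
      pderiv_sq_ne (by omega), d_two_mul, d_X, d_two_mul, d_X, map_zero,
      add_zero, show j + 2 + 2 = j + 4 by ring]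
    ring
  rw [e1, e2, e3, e4, show j + 2 + 2 = j + 3 + 1 by ring, show j + 2 + 1 = j + 3 by ring,
    pderiv_mul_two_X (by omega), pderiv_mul_two_X_self, pderiv_mul_two_X (by omega), ← hb] at hD
  have hG : pderiv (j + 3) f * (2 * X (j + 3)) + 2 * f =
      2 * (X (j + 3 + 1) * b - 2 * (((j : A) + 3) * (X (j + 3) * d b))
        - ((j : A) + 3) * (X (j + 3) * (X (j + 3) * β))) := by
    rw [hfm]
    linear_combination 2 * hA
  rw [hG, hfm] at hD
  have hc1 : (((j + 4).choose 2 : ℕ) : A) = (((j + 3).choose 2 : ℕ) : A) + ((j : A) + 3) := by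
    rw [show j + 4 = (j + 3) + 1 by ring, Nat.choose_succ_succ' (j + 3) 1]
    push_cast
    simp only [Nat.choose_one_right]
    push_cast
    ring
  have hc2 : 2 * (((j + 3).choose 2 : ℕ) : A) = ((j : A) + 3) * ((j : A) + 2) := by
    have : 2 * (j + 3).choose 2 = (j + 3) * (j + 2) := by
      rw [Nat.choose_two_right]
      have h := Nat.even_mul_pred_self (j + 3)
      rw [show j + 3 - 1 = j + 2 by omega] at h ⊢
      exact Nat.mul_div_cancel' h.two_dvd
    exact_mod_cast congrArg (fun n : ℕ => (n : A)) this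
  have hZ : ((j : A) + 3) ^ 2 * (X (j + 3 + 1) * β) +
      (2 * ((j : A) + 3) ^ 2 - (((j + 3).choose 2 : ℕ) : A)) * d (d b) +
      ((j : A) + 3) ^ 2 * (X (j + 3) * d β) = 0 := by
    have h5 : (2 * X (j + 3) : A) * (((j : A) + 3) ^ 2 * (X (j + 3 + 1) * β) +
      (2 * ((j : A) + 3) ^ 2 - (((j + 3).choose 2 : ℕ) : A)) * d (d b) +
      ((j : A) + 3) ^ 2 * (X (j + 3) * d β)) = 0 := by
      have hd2 : d (2 : A) = 0 := by rw [two_eq, d_C]
      simp only [map_sub, map_add, d_mul, d_X, hddj, hd2, map_zero] at hD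
      rw [hc1] at hD
      push_cast at hD
      linear_combination hD + (2 * X (j + 3 + 1) * d b) * hc2
    exact (mul_eq_zero.1 h5).resolve_left (mul_ne_zero h2 hX)
  -- Step E
  have hβ0 : β = 0 := by
    have h1 := congrArg (pderiv (j + 3 + 1)) hZ
    have e5 : pderiv (j + 3 + 1) β = 0 := by rw [hβ, pderiv_comm, hb1, map_zero]
    have e6 : pderiv (j + 3 + 1) (d β) = 0 := by
      rw [pderiv_succ_d, e5, hβ, pderiv_comm, hb0, map_zero, map_zero, add_zero]
    have e7 : pderiv (j + 3 + 1) (d (d b)) = β := by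
      rw [pderiv_succ_d, pderiv_succ_d, hb1, hb0, map_zero, add_zero, map_zero, zero_add,
        show j + 3 = (j + 2) + 1 by ring, pderiv_succ_d, show (j + 2) + 1 = j + 3 by ring, hb0,
        map_zero, zero_add, hβ]
    have e8 : pderiv (j + 3 + 1) (((j : A) + 3) ^ 2) = 0 := by
      rw [pow_two, pderiv_mul, hdj]; ring
    have e9 : pderiv (j + 3 + 1)
        (2 * ((j : A) + 3) ^ 2 - (((j + 3).choose 2 : ℕ) : A)) = 0 := by
      rw [map_sub, pderiv_two_mul, e8, Derivation.map_natCast]; ring
    rw [map_add, map_add, pderiv_mul, pderiv_mul, pderiv_mul, pderiv_mul, pderiv_mul, e5, e6, e7,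
      e8, e9, pderiv_X_self, pderiv_X_of_ne (by omega), map_zero] at h1
    have h3 : (((j : A) + 3) * (5 * (j : A) + 16)) * β = 0 := by
      linear_combination 2 * h1 + β * hc2
    have h4 : (((j : A) + 3) * (5 * (j : A) + 16)) ≠ 0 := by
      exact_mod_cast (show ((j + 3) * (5 * j + 16) : ℕ) ≠ 0 by positivity)
    exact (mul_eq_zero.1 h3).resolve_left h4
  have hddb : d (d b) = 0 := by
    rw [hβ0, map_zero] at hZ
    have h3 : (((j : A) + 3) * (3 * (j : A) + 10)) * d (d b) = 0 := by
      linear_combination 2 * hZ + d (d b) * hc2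
    have h4 : (((j : A) + 3) * (3 * (j : A) + 10)) ≠ 0 := by
      exact_mod_cast (show ((j + 3) * (3 * j + 10) : ℕ) ≠ 0 by positivity)
    exact (mul_eq_zero.1 h3).resolve_left h4
  -- Step F
  obtain ⟨c', hc'⟩ := ker_d hddb
  have hc0 : c' = 0 := by
    have := constantCoeff_d b
    rw [hc', constantCoeff_C] at this
    exact this
  have hdb : d b = 0 := by rw [hc', hc0, C_0]
  obtain ⟨c, hc⟩ := ker_d hdb
  refine ⟨c, ?_⟩
  rw [hA, hdb, hc]; ring

/-! ### The space `H (u_m ^ 2)` -/

lemma star_gen1 {m : ℕ} (hodd : Odd m) : star (X (m + 1)) (X m ^ 2) = 0 := by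
  rw [star_sq hodd, evol_X, Function.iterate_succ_apply, pow_two, d_mul, d_X,
    show (X (m + 1) * X m + X m * X (m + 1) : A) = X (m + 1) * (2 * X m) by ring, sub_self]

lemma star_gen2 {m : ℕ} (hodd : Odd m) : star (d^[m] (X m ^ 2)) (X m ^ 2) = 0 := by
  rw [star_sq hodd, evol_iter, show evol (X m ^ 2) ((X m : A) ^ 2) =
    d^[m] (X m ^ 2) * (2 * X m) by
      rw [show evol (X m ^ 2) ((X m : A) ^ 2) = evol (X m ^ 2) ((X m : A) * X m) by
        rw [← pow_two], Derivation.leibniz, evol_X]
      simp only [smul_eq_mul]; ring, sub_self]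

lemma pderiv_gen2 (m : ℕ) : pderiv (2 * m) (d^[m] ((X m : A) ^ 2)) = 2 * X m := by
  rw [two_mul, top1 (OB_sq m), pderiv_sq]

theorem mem_H_sq {m : ℕ} (hm : 1 < m) (hodd : Odd m) (f : A) (hf : star f (X m ^ 2) = 0) :
    ∃ c₁ c₂ : ℝ, f = c₁ • (X (m + 1) : A) + c₂ • d^[m] ((X m : A) ^ 2) := by
  have hm3 : 3 ≤ m := by
    obtain ⟨k, rfl⟩ := hodd
    omega
  have hE : ∀ h : A, star h (X m ^ 2) = 0 → evol (X m ^ 2) h = d^[m] (h * (2 * X m)) := by
    intro h hh
    rw [star_sq hodd] at hh
    exact sub_eq_zero.1 hh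
  -- descent to order `≤ 2m`
  have step1 : OB (2 * m + 1) f := by
    obtain ⟨M, hM⟩ := exists_OB f
    have key : ∀ t, OB (2 * m + 1 + t) f → OB (2 * m + 1) f := by
      intro t
      induction t with
      | zero => exact id
      | succ t ih =>
        intro ht
        apply ih
        intro k hk
        rcases Nat.lt_or_ge k (2 * m + 1 + (t + 1)) with hlt | hge
        · have hk' : k = 2 * m + 1 + t := by omega
          rw [hk']
          exact no_high (n := 2 * m + 1 + t) (by omega) (by omega) ht (hE f hf)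
        · exact ht k hge
    exact key M (OB_mono (by omega) hM)
  -- kill the coefficient of order `2m`
  obtain ⟨c, hc⟩ : ∃ c : ℝ, pderiv (2 * m) f = C c * X m := by
    rcases sep_solve (by omega) (pderiv (2 * m) f)
      (sep_cond (by omega) (by omega) step1 (hE f hf)) with h0 | ⟨q, c, hq, hb⟩
    · exact ⟨0, by rw [h0]; simp⟩
    · have hq1 : q = 1 := by
        have : m * q = m * 1 := by omega
        exact Nat.eq_of_mul_eq_mul_left (by omega) this
      exact ⟨c, by rw [hb, hq1, pow_one]⟩
  set f' : A := f - (c / 2) • d^[m] ((X m : A) ^ 2) with hf'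
  have hstar' : star f' (X m ^ 2) = 0 := by
    have h1 : f' ∈ H (X m ^ 2) := by
      apply Submodule.sub_mem
      · exact hf
      · exact Submodule.smul_mem _ _ (star_gen2 hodd)
    exact h1
  have hgen2 : OB (2 * m + 1) (d^[m] ((X m : A) ^ 2)) :=
    OB_mono (by omega) (OB_iter (OB_sq m) m)
  have step2 : OB (2 * m) f' := by
    intro k hk
    rcases Nat.lt_or_ge k (2 * m + 1) with hlt | hge
    · have hk' : k = 2 * m := by omega
      rw [hk', hf', map_sub, Derivation.map_smul, hc, pderiv_gen2, smul_eq_C_mul, two_eq,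
        ← mul_assoc, ← C_mul, div_mul_cancel₀ c (by norm_num : (2 : ℝ) ≠ 0), sub_self]
    · rw [hf', map_sub, Derivation.map_smul, step1 k hge, hgen2 k hge, smul_zero, sub_zero]
  -- descent to order `≤ m + 1`
  have step3 : OB (m + 2) f' := by
    have key : ∀ t, m + 2 + t ≤ 2 * m → OB (m + 2 + t) f' → OB (m + 2) f' := by
      intro t
      induction t with
      | zero => exact fun _ h => h
      | succ t ih =>
        intro hle ht
        apply ih (by omega)
        intro k hk
        rcases Nat.lt_or_ge k (m + 2 + (t + 1)) with hlt | hge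
        · have hk' : k = m + 2 + t := by omega
          rw [hk']
          rcases sep_solve (by omega) (pderiv (m + 2 + t) f')
            (sep_cond (by omega) (by omega) ht (hE f' hstar')) with h0 | ⟨q, c, hq, _⟩
          · exact h0
          · exfalso
            rcases Nat.eq_zero_or_pos q with h | h
            · rw [h] at hq; omega
            · have : m * 1 ≤ m * q := Nat.mul_le_mul_left m h
              omega
        · exact ht k hge
    exact key (m - 2) (by omega) (OB_mono (by omega) step2)
  obtain ⟨c₁, hc₁⟩ := low_order hm3 step3 (hE f' hstar')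
  refine ⟨c₁, c / 2, ?_⟩
  rw [smul_eq_C_mul, ← hc₁, hf']
  ring

theorem H_sq {m : ℕ} (hm : 1 < m) (hodd : Odd m) :
    H (X m ^ 2) = Submodule.span ℝ {(X (m + 1) : A), d^[m] ((X m : A) ^ 2)} := by
  apply le_antisymm
  · intro f hf
    obtain ⟨c₁, c₂, h⟩ := mem_H_sq hm hodd f hf
    rw [Submodule.mem_span_pair]
    exact ⟨c₁, c₂, h.symm⟩
  · rw [Submodule.span_le]
    intro f hf
    rcases hf with rfl | hf
    · exact star_gen1 hodd
    · rw [Set.mem_singleton_iff] at hf
      subst hf
      exact star_gen2 hodd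

lemma linInd {m : ℕ} (hm : 1 < m) :
    LinearIndependent ℝ ![(X (m + 1) : A), d^[m] ((X m : A) ^ 2)] := by
  rw [LinearIndependent.pair_iff]
  intro s t hst
  have h1 := congrArg (pderiv (2 * m)) hst
  rw [map_add, Derivation.map_smul, Derivation.map_smul, pderiv_gen2,
    pderiv_X_of_ne (by omega), smul_zero, zero_add, map_zero, smul_eq_C_mul, ← mul_assoc,
    two_eq, ← C_mul] at h1
  have h2 : t = 0 := by
    rcases mul_eq_zero.1 h1 with h | h
    · rw [C_eq_zero] at h
      linarith
    · exact absurd h (X_ne_zero' m)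
  refine ⟨?_, h2⟩
  rw [h2, zero_smul, add_zero, smul_eq_C_mul] at hst
  rcases mul_eq_zero.1 hst with h | h
  · exact C_eq_zero.1 h
  · exact absurd h (X_ne_zero' _)

theorem finrank_H_sq {m : ℕ} (hm : 1 < m) (hodd : Odd m) :
    Module.finrank ℝ (H (X m ^ 2)) = 2 := by
  have h1 := finrank_span_eq_card (linInd hm)
  rw [Matrix.range_cons_cons_empty] at h1
  rw [H_sq hm hodd, h1]
  simp

theorem finite_H_sq {m : ℕ} (hm : 1 < m) (hodd : Odd m) :
    FiniteDimensional ℝ (H (X m ^ 2)) := by
  rw [H_sq hm hodd]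
  exact FiniteDimensional.span_of_finite ℝ (by simp)
lemma counterexample {m : ℕ} (hm : 1 < m) (hodd : Odd m) : ¬ Q1At m := by
  intro h
  refine h (m + 1) (X (m + 1)) (X m ^ 2) (Nat.lt_succ_self m) ?_ ?_ ?_ ?_ (star_gen1 hodd)
    (finite_H_sq hm hodd)
  · exact (OB_iff_supported _ _).1 (OB_X (by omega))
  · rw [pderiv_X_self]; exact one_ne_zero
  · exact (OB_iff_supported _ _).1 (OB_sq m)
  · rw [pderiv_sq]
    exact mul_ne_zero (by norm_num) (X_ne_zero' m)

lemma even_case {m : ℕ} (hm : 1 < m) (heven : Even m) : Q1At m := by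
  intro n f g hmn hf hfn hg hgm hstar
  exfalso
  have h1 := star_top hmn ((OB_iff_supported n f).2 hf) ((OB_iff_supported m g).2 hg) (by omega)
  rw [hstar, map_zero, heven.neg_one_pow] at h1
  have h2 : (1 + 1 : A) ≠ 0 := by norm_num
  exact (mul_ne_zero h2 (mul_ne_zero hfn hgm)) h1.symm

theorem main :
    (¬ ∀ m : ℕ, 1 < m → Q1At m) ∧
    (∀ m : ℕ, 1 < m → (Q1At m ↔ Even m)) ∧
    (∀ m : ℕ, 1 < m → Odd m →
      star (X (m + 1)) (X m ^ 2) = 0 ∧
      H (X m ^ 2) = Submodule.span ℝ {(X (m + 1) : A), d^[m] ((X m : A) ^ 2)} ∧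
      Module.finrank ℝ (H (X m ^ 2)) = 2 ∧ FiniteDimensional ℝ (H (X m ^ 2))) := by
  refine ⟨?_, ?_, ?_⟩
  · intro h
    exact counterexample (m := 3) (by norm_num) (by decide) (h 3 (by norm_num))
  · intro m hm
    constructor
    · intro h
      by_contra hne
      exact counterexample hm (Nat.not_even_iff_odd.1 hne) h
    · exact even_case hm
  · intro m hm hodd
    exact ⟨star_gen1 hodd, H_sq hm hodd, finrank_H_sq hm hodd, finite_H_sq hm hodd⟩

end Pool.H84.Jet
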